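import Mathlib

/-!
# Project HM (helper76): a hypercyclic Fourier multiplier with symbol bounded by one on `L ^ p` of
hyperbolic space of dimension three (row MP_e4fe74_an). Statements.

The pair `(z, s)` stands for the point `(e ^ s z, e ^ s)` of the upper half space `ℂ × (0, ∞)`;
Lebesgue measure `dz ds` is the invariant measure `dx dt / t ^ 3`.
-/

set_option autoImplicit false

namespace Pool.Agent.Q76.HM

open MeasureTheory Filter Topology Set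
open scoped ENNReal ContDiff

/-- hyperbolic cosine of the distance -/
noncomputable def ch (x y : ℂ × ℝ) : ℝ :=
  (‖(Real.exp x.2 : ℂ) * x.1 - (Real.exp y.2 : ℂ) * y.1‖ ^ 2 + Real.exp x.2 ^ 2 +
    Real.exp y.2 ^ 2) / (2 * Real.exp x.2 * Real.exp y.2)

/-- the Poisson kernel `t / (|x - b| ^ 2 + t ^ 2)` of the boundary point `b` -/
noncomputable def Pk (b : ℂ) (x : ℂ × ℝ) : ℝ :=
  Real.exp x.2 / (‖(Real.exp x.2 : ℂ) * x.1 - b‖ ^ 2 + Real.exp x.2 ^ 2)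

/-- `(8 γ ^ 2 / π ^ 2) τ / sinh (2 γ τ)` -/
noncomputable def kap (γ τ : ℝ) : ℝ := 4 * γ / Real.pi ^ 2 * (dslope Real.sinh 0 (2 * γ * τ))⁻¹

/-- the radial kernel: `2 π ∫ c in (cosh τ, ∞), Kc γ c = kap γ τ` -/
noncomputable def Kc (γ c : ℝ) : ℝ :=
  if 1 < c then -(deriv (fun c => kap γ (Real.arcosh c)) c) / (2 * Real.pi) else 0

/-- KAP: the kernel -/
def S_KAP : Prop :=
  ∀ γ : ℝ, 0 < γ → Continuous (kap γ) ∧ (∀ τ, 0 < kap γ τ) ∧ (∀ τ, kap γ (-τ) = kap γ τ) ∧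
    (∃ C : ℝ, ∀ τ, kap γ τ ≤ C * (1 + |τ|) * Real.exp (-(2 * γ * |τ|))) ∧
    Measurable (Kc γ) ∧ (∀ c, 0 ≤ Kc γ c) ∧
    ∀ c : ℝ, 1 ≤ c → ∫⁻ x in Ioi c, ENNReal.ofReal (Kc γ x) =
      ENNReal.ofReal (kap γ (Real.arcosh c) / (2 * Real.pi))

/-- FTK: the Fourier transform of the kernel in the closed strip -/
def S_FTK : Prop :=
  ∀ γ : ℝ, 0 < γ → ∀ l : ℂ, |l.im| ≤ γ →
    Integrable (fun τ : ℝ => (kap γ τ : ℂ) * Complex.exp (Complex.I * l * τ)) ∧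
    ∫ τ : ℝ, (kap γ τ : ℂ) * Complex.exp (Complex.I * l * τ) =
      1 - Complex.tanh (Real.pi * l / (4 * γ)) ^ 2

/-- the isometry `(x, t) ↦ (x - b, t)` -/
noncomputable def trf (b : ℂ) (x : ℂ × ℝ) : ℂ × ℝ := (x.1 - b * (Real.exp (-x.2) : ℂ), x.2)

/-- the isometry `(x, t) ↦ (x, t) / (|x| ^ 2 + t ^ 2)` -/
noncomputable def jf (x : ℂ × ℝ) : ℂ × ℝ := (x.1, -x.2 - Real.log (1 + ‖x.1‖ ^ 2))

/-- ISO: the isometries -/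
def S_ISO : Prop :=
  (∀ b, MeasurePreserving (trf b) volume volume) ∧ MeasurePreserving jf volume volume ∧
  (∀ b x y, ch (trf b x) (trf b y) = ch x y) ∧ (∀ x y, ch (jf x) (jf y) = ch x y) ∧
  (∀ x, jf (jf x) = x) ∧ (∀ b x, trf (-b) (trf b x) = x) ∧
  (∀ b x, Real.exp (jf (trf b x)).2 = Pk b x) ∧
  (∀ x y, ch x y = (Real.exp (x.2 - y.2) * (1 + ‖x.1‖ ^ 2) +
    Real.exp (y.2 - x.2) * (1 + ‖y.1‖ ^ 2)) / 2 - (x.1 * (starRingEnd ℂ) y.1).re) ∧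
  (∀ x y, 1 ≤ ch x y) ∧ (∀ x y, ch x y = ch y x) ∧ (∀ x y, ch x y = 1 → x = y) ∧
  Continuous (fun q : (ℂ × ℝ) × (ℂ × ℝ) => ch q.1 q.2) ∧
  Continuous (fun q : ℂ × (ℂ × ℝ) => Pk q.1 q.2) ∧ ∀ b x, 0 < Pk b x

/-- HOR: horospherical integrals of the kernel -/
def S_HOR : Prop :=
  ∀ γ : ℝ, 0 < γ → ∀ (x : ℂ × ℝ) (g : ℝ → ℝ≥0∞), Measurable g →
    ∫⁻ y : ℂ × ℝ, ENNReal.ofReal (Kc γ (ch x y)) * g y.2 =
      ∫⁻ τ : ℝ, ENNReal.ofReal (Real.exp (-τ) * kap γ τ) * g (x.2 + τ)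

/-- HRB: the same for the horospheres at `b` -/
def S_HRB : Prop :=
  ∀ γ : ℝ, 0 < γ → ∀ (b : ℂ) (x : ℂ × ℝ) (g : ℝ → ℝ≥0∞), Measurable g →
    ∫⁻ y : ℂ × ℝ, ENNReal.ofReal (Kc γ (ch x y)) * g (Real.log (Pk b y)) =
      ∫⁻ τ : ℝ, ENNReal.ofReal (Real.exp (-τ) * kap γ τ) * g (Real.log (Pk b x) + τ)

/-- POV: superposition of horospherical waves, points on a vertical line -/
def S_POV : Prop :=
  ∀ (c : ℂ) (s₀ s : ℝ), s₀ ≠ s → ∀ Ψ : ℝ → ℝ≥0∞, Measurable Ψ →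
    ∫⁻ b : ℂ, ENNReal.ofReal ((Real.exp s₀ / (‖c - b‖ ^ 2 + Real.exp s₀ ^ 2)) ^ 2) *
      Ψ (Real.log (Real.exp s / (‖c - b‖ ^ 2 + Real.exp s ^ 2)) -
        Real.log (Real.exp s₀ / (‖c - b‖ ^ 2 + Real.exp s₀ ^ 2))) =
      ENNReal.ofReal (Real.pi / (2 * Real.sinh |s - s₀|)) *
        ∫⁻ τ in Icc (-|s - s₀|) |s - s₀|, ENNReal.ofReal (Real.exp (-τ)) * Ψ τ

/-- POI: superposition of horospherical waves -/
def S_POI : Prop :=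
  ∀ y₀ y : ℂ × ℝ, 1 < ch y₀ y → ∀ Ψ : ℝ → ℝ≥0∞, Measurable Ψ →
    ∫⁻ b : ℂ, ENNReal.ofReal (Pk b y₀ ^ 2) * Ψ (Real.log (Pk b y) - Real.log (Pk b y₀)) =
      ENNReal.ofReal (Real.pi / (2 * Real.sinh (Real.arcosh (ch y₀ y)))) *
        ∫⁻ τ in Icc (-Real.arcosh (ch y₀ y)) (Real.arcosh (ch y₀ y)),
          ENNReal.ofReal (Real.exp (-τ)) * Ψ τ

/-- OPR: the operator -/
def S_OPR : Prop :=
  ∀ p : ℝ, 2 < p → ∀ [Fact (1 ≤ ENNReal.ofReal p)],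
    ∃ T : Lp ℂ (ENNReal.ofReal p) (volume : Measure (ℂ × ℝ)) →L[ℂ]
        Lp ℂ (ENNReal.ofReal p) (volume : Measure (ℂ × ℝ)),
      ∀ f, (∀ᵐ x, Integrable fun y => (Kc (1 - 2 / p) (ch x y) : ℂ) * f y) ∧
        ⇑(T f) =ᵐ[volume] fun x => f x - ∫ y, (Kc (1 - 2 / p) (ch x y) : ℂ) * f y

/-- the superposition of the horospherical functions
`Pk b y ^ (1 + γ) * G (log (Pk b y / Pk b y₀))` -/
noncomputable def fam (γ : ℝ) (y₀ : ℂ × ℝ) (G : ℝ → ℂ) (y : ℂ × ℝ) : ℂ :=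
  ∫ b : ℂ, ((Pk b y₀ ^ (1 - γ) * Pk b y ^ (1 + γ) : ℝ) : ℂ) *
    G (Real.log (Pk b y) - Real.log (Pk b y₀))

/-- FAM: the norm of the superposition -/
def S_FAM : Prop :=
  ∀ p : ℝ, 2 < p → ∃ C : ℝ, ∀ (y₀ : ℂ × ℝ) (G : ℝ → ℂ), Continuous G → (∃ M : ℝ, ∀ σ, ‖G σ‖ ≤ M) →
    MemLp G (ENNReal.ofReal p) →
    (∀ y, Integrable fun b : ℂ => ((Pk b y₀ ^ (1 - (1 - 2 / p)) *
      Pk b y ^ (1 + (1 - 2 / p)) : ℝ) : ℂ) * G (Real.log (Pk b y) - Real.log (Pk b y₀))) ∧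
    MemLp (fam (1 - 2 / p) y₀ G) (ENNReal.ofReal p) ∧
    eLpNorm (fam (1 - 2 / p) y₀ G) (ENNReal.ofReal p) volume ≤
      ENNReal.ofReal C * eLpNorm G (ENNReal.ofReal p) volume

/-- ACT: the operator acts on the superpositions as a convolution -/
def S_ACT : Prop :=
  ∀ γ : ℝ, 0 < γ → γ < 1 → ∀ (y₀ : ℂ × ℝ) (G : ℝ → ℂ), Continuous G → (∃ M : ℝ, ∀ σ, ‖G σ‖ ≤ M) →
    ∀ x, Integrable (fun y => (Kc γ (ch x y) : ℂ) * fam γ y₀ G y) ∧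
      fam γ y₀ G x - ∫ y, (Kc γ (ch x y) : ℂ) * fam γ y₀ G y =
        fam γ y₀ (fun σ => G σ - ∫ τ : ℝ, ((Real.exp (γ * τ) * kap γ τ : ℝ) : ℂ) * G (σ + τ)) x

/-- RAD: the superposition is radial -/
def S_RAD : Prop :=
  ∀ γ : ℝ, 0 < γ → γ < 1 → ∀ (y₀ : ℂ × ℝ) (G : ℝ → ℂ), Continuous G → (∃ M : ℝ, ∀ σ, ‖G σ‖ ≤ M) →
    ∀ y, 1 < ch y₀ y → fam γ y₀ G y =
      ((Real.pi / (2 * Real.sinh (Real.arcosh (ch y₀ y))) : ℝ) : ℂ) *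
        ∫ τ in (-Real.arcosh (ch y₀ y))..(Real.arcosh (ch y₀ y)), (Real.exp (γ * τ) : ℂ) * G τ

/-- inverse Fourier transform without constants -/
noncomputable def GG (a : ℝ → ℂ) (σ : ℝ) : ℂ := ∫ ξ : ℝ, a ξ * Complex.exp (Complex.I * ξ * σ)

/-- the phase -/
noncomputable def psi (c ξ : ℝ) : ℝ := 4 * Real.arctan (Real.exp (c * ξ))

/-- the density with the phase factor `exp (i t psi)` -/
noncomputable def ph (c t : ℝ) (a : ℝ → ℂ) (ξ : ℝ) : ℂ :=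
  a ξ * Complex.exp (Complex.I * t * psi c ξ)

/-- RLB: decay of the sup norm (Riemann-Lebesgue lemma in dimension two) -/
def S_RLB : Prop :=
  ∀ c : ℝ, 0 < c → ∀ a : ℝ → ℂ, Continuous a → HasCompactSupport a → ∀ ε : ℝ, 0 < ε →
    ∃ t₀ : ℝ, ∀ t : ℝ, t₀ ≤ |t| → ∀ σ : ℝ, ‖GG (ph c t a) σ‖ ≤ ε

/-- PLA: the `L ^ p` norm, `p > 2` (Plancherel) -/
def S_PLA : Prop :=
  ∀ p : ℝ, 2 < p → ∀ a : ℝ → ℂ, ContDiff ℝ ∞ a → HasCompactSupport a → ∀ M : ℝ, 0 ≤ M →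
    (∀ σ, ‖GG a σ‖ ≤ M) → Continuous (GG a) ∧ MemLp (GG a) (ENNReal.ofReal p) ∧
      eLpNorm (GG a) (ENNReal.ofReal p) volume ^ p ≤
        ENNReal.ofReal (M ^ (p - 2) * (2 * Real.pi * ∫ ξ, ‖a ξ‖ ^ 2))

/-- GDN: the functions `GG a` are dense -/
def S_GDN : Prop :=
  ∀ p : ℝ, 2 < p → ∀ G : ℝ → ℂ, ContDiff ℝ ∞ G → HasCompactSupport G → ∀ ε : ℝ, 0 < ε →
    ∃ a : ℝ → ℂ, ContDiff ℝ ∞ a ∧ HasCompactSupport a ∧
      eLpNorm (fun σ => G σ - GG a σ) (ENNReal.ofReal p) volume ≤ ENNReal.ofReal ε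

/-- BMP: radial bumps span a dense subspace -/
def S_BMP : Prop :=
  ∀ p : ℝ, 1 < p → ∀ [Fact (1 ≤ ENNReal.ofReal p)],
    ∀ V : Submodule ℂ (Lp ℂ (ENNReal.ofReal p) (volume : Measure (ℂ × ℝ))),
      IsClosed (V : Set (Lp ℂ (ENNReal.ofReal p) (volume : Measure (ℂ × ℝ)))) →
      (∀ (y₀ : ℂ × ℝ) (β : ℝ → ℝ), ContDiff ℝ ∞ β → HasCompactSupport β →
        ∀ f : Lp ℂ (ENNReal.ofReal p) (volume : Measure (ℂ × ℝ)),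
          (⇑f =ᵐ[volume] fun y => (β (ch y₀ y) : ℂ)) → f ∈ V) → V = ⊤

/-- KIT: the criterion of Kitai -/
def S_KIT : Prop :=
  ∀ (E : Type) [NormedAddCommGroup E] [NormedSpace ℂ E] [CompleteSpace E]
    [SecondCountableTopology E] (T : E →L[ℂ] E) (D : Set E),
    Dense (Submodule.span ℂ D : Set E) →
    (∀ x ∈ D, Tendsto (fun n : ℕ => (T ^ n) x) atTop (𝓝 0)) →
    (∀ x ∈ D, ∃ y : ℕ → E, (∀ n, (T ^ n) (y n) = x) ∧ Tendsto y atTop (𝓝 0)) →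
    ∃ x : E, Dense (range fun n : ℕ => (T ^ n) x)

/-- the horospherical wave `e ^ ((1 - i l) A(x, b))`, normalised at the point `(0, 1)`; `none` is the
boundary point at infinity -/
noncomputable def wav (l : ℂ) : Option ℂ → ℂ × ℝ → ℂ
  | none, x => Complex.exp ((1 - Complex.I * l) * x.2)
  | some b, x => Complex.exp ((1 - Complex.I * l) * ((Real.log (Pk b x) -
      Real.log (Pk b (0, 0)) : ℝ) : ℂ))

/-- HEL: the symbol -/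
def S_HEL : Prop :=
  ∀ γ : ℝ, 0 < γ → γ < 1 → ∀ f : ℂ × ℝ → ℂ, Continuous f → HasCompactSupport f → ∀ l : ℂ,
    |l.im| ≤ γ → ∀ b : Option ℂ,
      Integrable (fun x => (f x - ∫ y, (Kc γ (ch x y) : ℂ) * f y) * wav l b x) ∧
      ∫ x, (f x - ∫ y, (Kc γ (ch x y) : ℂ) * f y) * wav l b x =
        Complex.tanh (Real.pi * l / (4 * γ)) ^ 2 * ∫ x, f x * wav l b x

end Pool.Agent.Q76.HM
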