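import Pool.Agent.Q76.HM.Stm

/-!
# Project HM (helper76): assembly
-/

set_option autoImplicit false

namespace Pool.Agent.Q76.HM

open MeasureTheory Filter Topology Set
open scoped ENNReal ContDiff

/-! ### the phase -/

lemma smooth_psi (c : ℝ) : ContDiff ℝ ∞ (psi c) := by
  unfold psi
  exact contDiff_const.mul (Real.contDiff_arctan.comp
    (Real.contDiff_exp.comp (contDiff_const.mul contDiff_id)))

lemma smooth_ph (c t : ℝ) {a : ℝ → ℂ} (ha : ContDiff ℝ ∞ a) : ContDiff ℝ ∞ (ph c t a) := by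
  unfold ph
  refine ha.mul (Complex.contDiff_exp.comp (contDiff_const.mul ?_))
  exact Complex.ofRealCLM.contDiff.comp (smooth_psi c)

lemma supp_ph (c t : ℝ) {a : ℝ → ℂ} (ha : HasCompactSupport a) : HasCompactSupport (ph c t a) :=
  ha.mul_right

lemma norm_ph (c t : ℝ) (a : ℝ → ℂ) (ξ : ℝ) : ‖ph c t a ξ‖ = ‖a ξ‖ := by
  unfold ph
  rw [norm_mul, Complex.norm_exp]
  simp

lemma ph_zero (c : ℝ) (a : ℝ → ℂ) : ph c 0 a = a := by
  funext ξ
  simp [ph]

lemma ph_add (c s t : ℝ) (a : ℝ → ℂ) : ph c s (ph c t a) = ph c (t + s) a := by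
  funext ξ
  unfold ph
  rw [mul_assoc, ← Complex.exp_add]
  congr 2
  push_cast
  ring

lemma cont_int {a : ℝ → ℂ} (ha : Continuous a) (h : HasCompactSupport a) : Integrable a :=
  ha.integrable_of_hasCompactSupport h

lemma norm_wave (ξ σ : ℝ) : ‖Complex.exp (Complex.I * ξ * σ)‖ = 1 := by
  rw [Complex.norm_exp]
  simp

lemma GG_bd {a : ℝ → ℂ} (σ : ℝ) : ‖GG a σ‖ ≤ ∫ ξ, ‖a ξ‖ := by
  unfold GG
  refine (norm_integral_le_integral_norm _).trans (le_of_eq ?_)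
  refine integral_congr_ae (Eventually.of_forall fun ξ => ?_)
  simp only [norm_mul, norm_wave, mul_one]

/-- the symbol on the lower edge of the strip -/
lemma edge (γ : ℝ) (hγ : 0 < γ) (ξ : ℝ) :
    Complex.tanh (Real.pi * ((ξ : ℂ) - Complex.I * γ) / (4 * γ)) ^ 2 =
      Complex.exp (Complex.I * (1 : ℝ) * psi (Real.pi / (2 * γ)) ξ) := by
  set E : ℝ := Real.exp (Real.pi / (2 * γ) * ξ) with hE
  have hEpos : 0 < E := Real.exp_pos _
  set w : ℂ := Real.pi * ((ξ : ℂ) - Complex.I * γ) / (4 * γ) with hw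
  have hγ' : (γ : ℂ) ≠ 0 := by exact_mod_cast hγ.ne'
  have hw2 : Complex.exp (2 * w) = -Complex.I * E := by
    have h1 : 2 * w = ((Real.pi / (2 * γ) * ξ : ℝ) : ℂ) + (-(Real.pi / 2 * Complex.I)) := by
      rw [hw]
      push_cast
      field_simp
      ring
    rw [h1, Complex.exp_add, ← Complex.ofReal_exp, ← hE, Complex.exp_neg, Complex.exp_pi_div_two_mul_I]
    rw [Complex.inv_I]
    ring
  have hden : (1 : ℂ) - Complex.I * E ≠ 0 := by
    intro h
    have := congrArg Complex.re h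
    simp at this
  have htanh : Complex.tanh w = -((1 + Complex.I * E) / (1 - Complex.I * E)) := by
    rw [Complex.tanh_eq_sinh_div_cosh, Complex.sinh, Complex.cosh]
    have hne : Complex.exp w ≠ 0 := Complex.exp_ne_zero w
    have h2 : Complex.exp w * Complex.exp w = -Complex.I * E := by
      rw [← Complex.exp_add, ← two_mul, hw2]
    have h3 : Complex.exp (-w) = (Complex.exp w)⁻¹ := Complex.exp_neg w
    rw [h3, div_div_div_cancel_right₀ two_ne_zero]
    have h4 : Complex.exp w + (Complex.exp w)⁻¹ ≠ 0 := by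
      intro h
      have h5 : Complex.exp w * (Complex.exp w + (Complex.exp w)⁻¹) = 0 := by rw [h, mul_zero]
      rw [mul_add, mul_inv_cancel₀ hne, h2] at h5
      apply hden
      rw [← h5]
      ring
    rw [div_eq_iff h4, neg_mul, div_mul_eq_mul_div, ← neg_div, eq_div_iff hden]
    have h6 : Complex.exp w * Complex.exp w⁻¹ = Complex.exp w * Complex.exp w⁻¹ := rfl
    apply mul_left_cancel₀ hne
    have h7 : Complex.exp w * (Complex.exp w)⁻¹ = 1 := mul_inv_cancel₀ hne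
    linear_combination ((1 - Complex.I * E) + (1 + Complex.I * E)) * h2 +
      (-(1 - Complex.I * E) + (1 + Complex.I * E)) * h7
  have hexp : Complex.exp (2 * (Real.arctan E : ℂ) * Complex.I) =
      (1 + Complex.I * E) / (1 - Complex.I * E) := by
    have hc : (Real.cos (Real.arctan E)) ≠ 0 := (Real.cos_arctan_pos E).ne'
    have hs : Real.sin (Real.arctan E) = E * Real.cos (Real.arctan E) := by
      rw [Real.sin_arctan, Real.cos_arctan]
      ring
    have hc' : (Real.cos (Real.arctan E) : ℂ) ≠ 0 := by exact_mod_cast hc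
    have h8 : Complex.exp ((Real.arctan E : ℂ) * Complex.I) =
        (Real.cos (Real.arctan E) : ℂ) * (1 + Complex.I * E) := by
      rw [Complex.exp_mul_I, ← Complex.ofReal_cos, ← Complex.ofReal_sin, hs]
      push_cast
      ring
    have h9 : Complex.exp (-((Real.arctan E : ℂ) * Complex.I)) =
        (Real.cos (Real.arctan E) : ℂ) * (1 - Complex.I * E) := by
      rw [← neg_mul, Complex.exp_mul_I, Complex.cos_neg, Complex.sin_neg, ← Complex.ofReal_cos,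
        ← Complex.ofReal_sin, hs]
      push_cast
      ring
    have h10 : Complex.exp (2 * (Real.arctan E : ℂ) * Complex.I) =
        Complex.exp ((Real.arctan E : ℂ) * Complex.I) /
          Complex.exp (-((Real.arctan E : ℂ) * Complex.I)) := by
      rw [← Complex.exp_sub]
      congr 1
      ring
    rw [h10, h8, h9, mul_div_mul_left _ _ hc']
  rw [htanh, neg_sq, ← hexp, ← Complex.exp_nat_mul]
  congr 1
  unfold psi
  rw [← hE]
  push_cast
  ring

/-- the convolution on the density side -/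
theorem conv (hF : S_FTK) (γ : ℝ) (hγ : 0 < γ) (a : ℝ → ℂ) (ha : Continuous a)
    (hs : HasCompactSupport a) (σ : ℝ) :
    GG a σ - ∫ τ : ℝ, ((Real.exp (γ * τ) * kap γ τ : ℝ) : ℂ) * GG a (σ + τ) =
      GG (ph (Real.pi / (2 * γ)) 1 a) σ := by
  have hai := cont_int ha hs
  have him : ∀ ξ : ℝ, |((ξ : ℂ) - Complex.I * γ).im| ≤ γ := by
    intro ξ
    simp [abs_of_pos hγ]
  have hexp : ∀ (ξ τ : ℝ), (kap γ τ : ℂ) * Complex.exp (Complex.I * ((ξ : ℂ) - Complex.I * γ) * τ) =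
      ((Real.exp (γ * τ) * kap γ τ : ℝ) : ℂ) * Complex.exp (Complex.I * ξ * τ) := by
    intro ξ τ
    have h1 : Complex.I * ((ξ : ℂ) - Complex.I * γ) * τ = ((γ * τ : ℝ) : ℂ) + Complex.I * ξ * τ := by
      push_cast
      linear_combination (-(γ : ℂ) * τ) * Complex.I_mul_I
    rw [h1, Complex.exp_add, ← Complex.ofReal_exp]
    push_cast
    ring
  have hk : Integrable fun τ : ℝ => ((Real.exp (γ * τ) * kap γ τ : ℝ) : ℂ) := by
    have h1 := (hF γ hγ _ (him 0)).1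
    refine h1.congr (Eventually.of_forall fun τ => ?_)
    simp only [hexp]
    simp
  have hval : ∀ ξ : ℝ, ∫ τ : ℝ, ((Real.exp (γ * τ) * kap γ τ : ℝ) : ℂ) *
      Complex.exp (Complex.I * ξ * τ) =
      1 - Complex.exp (Complex.I * (1 : ℝ) * psi (Real.pi / (2 * γ)) ξ) := by
    intro ξ
    have h1 := (hF γ hγ _ (him ξ)).2
    rw [edge γ hγ ξ] at h1
    rw [← h1]
    exact integral_congr_ae (Eventually.of_forall fun τ => (hexp ξ τ).symm)
  have hprod : Integrable (fun q : ℝ × ℝ => ((Real.exp (γ * q.1) * kap γ q.1 : ℝ) : ℂ) *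
      (a q.2 * Complex.exp (Complex.I * q.2 * ((σ + q.1 : ℝ) : ℂ)))) (volume.prod volume) := by
    have h1 := hk.mul_prod hai
    have h2 : Integrable (fun q : ℝ × ℝ => Complex.exp (Complex.I * q.2 * ((σ + q.1 : ℝ) : ℂ)) *
        (((Real.exp (γ * q.1) * kap γ q.1 : ℝ) : ℂ) * a q.2)) (volume.prod volume) := by
      refine h1.bdd_mul (c := 1) (Continuous.aestronglyMeasurable (by fun_prop))
        (Eventually.of_forall fun q => ?_)
      rw [norm_wave]
    refine h2.congr (Eventually.of_forall fun q => ?_)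
    simp only []
    ring
  have h1 : ∫ τ : ℝ, ((Real.exp (γ * τ) * kap γ τ : ℝ) : ℂ) * GG a (σ + τ) =
      ∫ ξ : ℝ, a ξ * Complex.exp (Complex.I * ξ * σ) *
        (1 - Complex.exp (Complex.I * (1 : ℝ) * psi (Real.pi / (2 * γ)) ξ)) := by
    calc ∫ τ : ℝ, ((Real.exp (γ * τ) * kap γ τ : ℝ) : ℂ) * GG a (σ + τ) =
        ∫ τ : ℝ, ∫ ξ : ℝ, ((Real.exp (γ * τ) * kap γ τ : ℝ) : ℂ) *
          (a ξ * Complex.exp (Complex.I * ξ * ((σ + τ : ℝ) : ℂ))) := by
          refine integral_congr_ae (Eventually.of_forall fun τ => ?_)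
          simp only [GG]
          rw [integral_const_mul]
      _ = ∫ ξ : ℝ, ∫ τ : ℝ, ((Real.exp (γ * τ) * kap γ τ : ℝ) : ℂ) *
          (a ξ * Complex.exp (Complex.I * ξ * ((σ + τ : ℝ) : ℂ))) :=
          integral_integral_swap hprod
      _ = _ := by
          refine integral_congr_ae (Eventually.of_forall fun ξ => ?_)
          simp only []
          rw [← hval ξ, ← integral_const_mul]
          refine integral_congr_ae (Eventually.of_forall fun τ => ?_)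
          simp only []
          have h3 : Complex.exp (Complex.I * ξ * ((σ + τ : ℝ) : ℂ)) =
              Complex.exp (Complex.I * ξ * σ) * Complex.exp (Complex.I * ξ * τ) := by
            rw [← Complex.exp_add]
            congr 1
            push_cast
            ring
          rw [h3]
          ring
  have hi1 : Integrable fun ξ : ℝ => a ξ * Complex.exp (Complex.I * ξ * σ) := by
    refine (cont_int (a := fun ξ : ℝ => a ξ * Complex.exp (Complex.I * ξ * σ)) (by fun_prop) ?_)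
    exact hs.mul_right
  have hi2 : Integrable fun ξ : ℝ => a ξ * Complex.exp (Complex.I * ξ * σ) *
      (1 - Complex.exp (Complex.I * (1 : ℝ) * psi (Real.pi / (2 * γ)) ξ)) := by
    have hpc : Continuous (psi (Real.pi / (2 * γ))) := (smooth_psi _).continuous
    refine (cont_int (by fun_prop) ?_)
    exact (hs.mul_right).mul_right
  rw [h1]
  unfold GG ph
  rw [← integral_sub hi1 hi2]
  refine integral_congr_ae (Eventually.of_forall fun ξ => ?_)
  simp only []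
  ring

/-! ### the vectors -/

section

variable (p : ℝ) (hp : 2 < p)

/-- the exponent -/
noncomputable abbrev gam (p : ℝ) : ℝ := 1 - 2 / p

lemma gam_pos {p : ℝ} (hp : 2 < p) : 0 < gam p := by
  have : 2 / p < 1 := by rw [div_lt_one (by linarith)]; exact hp
  unfold gam
  linarith

lemma gam_lt {p : ℝ} (hp : 2 < p) : gam p < 1 := by
  have : 0 < 2 / p := by positivity
  unfold gam
  linarith

lemma GG_mem (hPLA : S_PLA) {p : ℝ} (hp : 2 < p) {a : ℝ → ℂ} (ha : ContDiff ℝ ∞ a)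
    (hs : HasCompactSupport a) :
    Continuous (GG a) ∧ (∃ M : ℝ, ∀ σ, ‖GG a σ‖ ≤ M) ∧ MemLp (GG a) (ENNReal.ofReal p) := by
  have h0 : 0 ≤ ∫ ξ, ‖a ξ‖ := integral_nonneg fun _ => norm_nonneg _
  obtain ⟨h1, h2, -⟩ := hPLA p hp a ha hs _ h0 fun σ => GG_bd σ
  exact ⟨h1, ⟨_, fun σ => GG_bd σ⟩, h2⟩

/-- small sup norm gives small `L ^ p` norm -/
lemma GG_small (hPLA : S_PLA) (hRLB : S_RLB) {p : ℝ} (hp : 2 < p) {a : ℝ → ℂ}
    (ha : ContDiff ℝ ∞ a) (hs : HasCompactSupport a) (c : ℝ) (hc : 0 < c) (ε : ℝ) (hε : 0 < ε) :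
    ∃ t₀ : ℝ, ∀ t : ℝ, t₀ ≤ |t| →
      eLpNorm (GG (ph c t a)) (ENNReal.ofReal p) volume ≤ ENNReal.ofReal ε := by
  set A : ℝ := 2 * Real.pi * ∫ ξ, ‖a ξ‖ ^ 2 with hA
  have hA0 : 0 ≤ A := by
    have : 0 ≤ ∫ ξ, ‖a ξ‖ ^ 2 := integral_nonneg fun _ => by positivity
    have := Real.pi_pos
    positivity
  have hp2 : 0 < p - 2 := by linarith
  have hp0 : 0 < p := by linarith
  -- choose `M` with `M ^ (p - 2) * A ≤ ε ^ p`
  obtain ⟨M, hM, hMA⟩ : ∃ M : ℝ, 0 < M ∧ M ^ (p - 2) * A ≤ ε ^ p := by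
    have ht : Tendsto (fun M : ℝ => M ^ (p - 2) * A) (𝓝[>] 0) (𝓝 0) := by
      have h1 : Tendsto (fun M : ℝ => M ^ (p - 2)) (𝓝 0) (𝓝 0) := by
        have h2 := (Real.continuousAt_rpow_const 0 (p - 2) (Or.inr hp2.le)).tendsto
        rwa [Real.zero_rpow hp2.ne'] at h2
      have h3 := (h1.mono_left nhdsWithin_le_nhds : Tendsto _ (𝓝[>] (0:ℝ)) _).mul_const A
      rwa [zero_mul] at h3
    have h4 : ∀ᶠ M in 𝓝[>] (0:ℝ), M ^ (p - 2) * A < ε ^ p :=
      ht.eventually_lt_const (Real.rpow_pos_of_pos hε p)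
    have h5 : ∀ᶠ M in 𝓝[>] (0:ℝ), 0 < M := self_mem_nhdsWithin
    obtain ⟨M, h6, h7⟩ := (h4.and h5).exists
    exact ⟨M, h7, h6.le⟩
  obtain ⟨t₀, ht₀⟩ := hRLB c hc a ha.continuous hs M hM
  refine ⟨t₀, fun t ht => ?_⟩
  have h1 := (hPLA p hp (ph c t a) (smooth_ph c t ha) (supp_ph c t hs) M hM.le (ht₀ t ht)).2.2
  simp only [norm_ph] at h1
  rw [← hA] at h1
  have h2 : eLpNorm (GG (ph c t a)) (ENNReal.ofReal p) volume ^ p ≤ ENNReal.ofReal ε ^ p := by
    refine h1.trans ?_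
    rw [ENNReal.ofReal_rpow_of_pos hε]
    exact ENNReal.ofReal_le_ofReal hMA
  exact (ENNReal.rpow_le_rpow_iff hp0).1 h2

end

section main

variable {p : ℝ} (hp : 2 < p) [Fact (1 ≤ ENNReal.ofReal p)] (hPLA : S_PLA) (hFAM : S_FAM)

omit [Fact (1 ≤ ENNReal.ofReal p)] in
include hPLA hFAM in
lemma vv_mem (hp : 2 < p) (y₀ : ℂ × ℝ) {a : ℝ → ℂ} (ha : ContDiff ℝ ∞ a)
    (hs : HasCompactSupport a) :
    MemLp (fam (gam p) y₀ (GG a)) (ENNReal.ofReal p) := by
  obtain ⟨C, hC⟩ := hFAM p hp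
  obtain ⟨h1, h2, h3⟩ := GG_mem hPLA hp ha hs
  exact (hC y₀ (GG a) h1 h2 h3).2.1

/-- the vectors -/
noncomputable def vv (y₀ : ℂ × ℝ) (a : ℝ → ℂ) (ha : ContDiff ℝ ∞ a) (hs : HasCompactSupport a) :
    Lp ℂ (ENNReal.ofReal p) (volume : Measure (ℂ × ℝ)) :=
  (vv_mem hPLA hFAM hp y₀ ha hs).toLp _

/-- the operator -/
def IsOp (T : Lp ℂ (ENNReal.ofReal p) (volume : Measure (ℂ × ℝ)) →L[ℂ]
    Lp ℂ (ENNReal.ofReal p) (volume : Measure (ℂ × ℝ))) : Prop :=
  ∀ f, (∀ᵐ x, Integrable fun y => (Kc (1 - 2 / p) (ch x y) : ℂ) * f y) ∧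
    ⇑(T f) =ᵐ[volume] fun x => f x - ∫ y, (Kc (1 - 2 / p) (ch x y) : ℂ) * f y

theorem T_vv (hFTK : S_FTK) (hACT : S_ACT)
    {T : Lp ℂ (ENNReal.ofReal p) (volume : Measure (ℂ × ℝ)) →L[ℂ]
      Lp ℂ (ENNReal.ofReal p) (volume : Measure (ℂ × ℝ))} (hT : IsOp T) (y₀ : ℂ × ℝ) (a : ℝ → ℂ)
    (ha : ContDiff ℝ ∞ a) (hs : HasCompactSupport a) :
    T (vv hp hPLA hFAM y₀ a ha hs) = vv hp hPLA hFAM y₀ (ph (Real.pi / (2 * gam p)) 1 a)
      (smooth_ph _ _ ha) (supp_ph _ _ hs) := by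
  apply Lp.ext
  obtain ⟨h1, h2, h3⟩ := GG_mem hPLA hp ha hs
  have hv : ⇑(vv hp hPLA hFAM y₀ a ha hs) =ᵐ[volume] fam (gam p) y₀ (GG a) :=
    MemLp.coeFn_toLp _
  filter_upwards [(hT (vv hp hPLA hFAM y₀ a ha hs)).2, hv,
    MemLp.coeFn_toLp (vv_mem hPLA hFAM hp y₀ (smooth_ph (Real.pi / (2 * gam p)) 1 ha)
      (supp_ph (Real.pi / (2 * gam p)) 1 hs))] with x hx hx1 hx2
  rw [hx, hx1]
  refine Eq.trans ?_ hx2.symm
  have h4 : ∫ y, (Kc (1 - 2 / p) (ch x y) : ℂ) * (vv hp hPLA hFAM y₀ a ha hs) y =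
      ∫ y, (Kc (gam p) (ch x y) : ℂ) * fam (gam p) y₀ (GG a) y := by
    refine integral_congr_ae ?_
    filter_upwards [hv] with y hy
    rw [hy]
  rw [h4, (hACT (gam p) (gam_pos hp) (gam_lt hp) y₀ (GG a) h1 h2 x).2]
  congr 1
  funext σ
  exact conv hFTK (gam p) (gam_pos hp) a ha.continuous hs σ

omit [Fact (1 ≤ ENNReal.ofReal p)] in
lemma vv_congr (y₀ : ℂ × ℝ) {a b : ℝ → ℂ} (h : a = b) (ha : ContDiff ℝ ∞ a)
    (hs : HasCompactSupport a) (hb : ContDiff ℝ ∞ b) (hs' : HasCompactSupport b) :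
    vv hp hPLA hFAM y₀ a ha hs = vv hp hPLA hFAM y₀ b hb hs' := by
  subst h
  rfl

theorem T_pow (hFTK : S_FTK) (hACT : S_ACT)
    {T : Lp ℂ (ENNReal.ofReal p) (volume : Measure (ℂ × ℝ)) →L[ℂ]
      Lp ℂ (ENNReal.ofReal p) (volume : Measure (ℂ × ℝ))} (hT : IsOp T) (y₀ : ℂ × ℝ) (a : ℝ → ℂ)
    (ha : ContDiff ℝ ∞ a) (hs : HasCompactSupport a) (t : ℝ) (n : ℕ) :
    (T ^ n) (vv hp hPLA hFAM y₀ (ph (Real.pi / (2 * gam p)) t a) (smooth_ph _ _ ha)
      (supp_ph _ _ hs)) = vv hp hPLA hFAM y₀ (ph (Real.pi / (2 * gam p)) (t + n) a)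
        (smooth_ph _ _ ha) (supp_ph _ _ hs) := by
  induction n with
  | zero =>
    simp only [pow_zero, Nat.cast_zero, add_zero]
    rfl
  | succ n ih =>
    rw [pow_succ']
    show T ((T ^ n) _) = _
    rw [ih, T_vv hp hPLA hFAM hFTK hACT hT]
    refine vv_congr hp hPLA hFAM y₀ ?_ _ _ _ _
    rw [ph_add]
    congr 1
    push_cast
    ring

omit [Fact (1 ≤ ENNReal.ofReal p)] in
theorem vv_small (hRLB : S_RLB) (y₀ : ℂ × ℝ) (a : ℝ → ℂ)
    (ha : ContDiff ℝ ∞ a) (hs : HasCompactSupport a) (ε : ℝ) (hε : 0 < ε) :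
    ∃ t₀ : ℝ, ∀ t : ℝ, t₀ ≤ |t| → ‖vv hp hPLA hFAM y₀ (ph (Real.pi / (2 * gam p)) t a)
      (smooth_ph _ _ ha) (supp_ph _ _ hs)‖ ≤ ε := by
  obtain ⟨C, hC⟩ := hFAM p hp
  have hc : 0 < Real.pi / (2 * gam p) := by
    have := gam_pos hp
    have := Real.pi_pos
    positivity
  obtain ⟨t₀, ht₀⟩ := GG_small hPLA hRLB hp ha hs _ hc (ε / (|C| + 1)) (by positivity)
  refine ⟨t₀, fun t ht => ?_⟩
  obtain ⟨h1, h2, h3⟩ := GG_mem hPLA hp (smooth_ph (Real.pi / (2 * gam p)) t ha)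
    (supp_ph (Real.pi / (2 * gam p)) t hs)
  have h4 := (hC y₀ _ h1 h2 h3).2.2
  unfold vv
  rw [Lp.norm_toLp]
  refine ENNReal.toReal_le_of_le_ofReal hε.le (h4.trans ?_)
  calc ENNReal.ofReal C * eLpNorm (GG (ph (Real.pi / (2 * gam p)) t a)) (ENNReal.ofReal p) volume
      ≤ ENNReal.ofReal (|C| + 1) * ENNReal.ofReal (ε / (|C| + 1)) :=
        mul_le_mul' (ENNReal.ofReal_le_ofReal (by linarith [le_abs_self C])) (ht₀ t ht)
    _ = ENNReal.ofReal ε := by
        rw [← ENNReal.ofReal_mul (by positivity)]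
        congr 1
        field_simp

/-! ### density -/

/-- the profile -/
noncomputable def BB (β : ℝ → ℝ) (r : ℝ) : ℝ := 2 / Real.pi * (β (Real.cosh r) * Real.sinh r)

/-- the density of the superposition -/
noncomputable def DG (γ : ℝ) (β : ℝ → ℝ) (τ : ℝ) : ℂ :=
  ((1 / 2 * Real.exp (-(γ * τ)) * deriv (BB β) τ : ℝ) : ℂ)

lemma smooth_BB {β : ℝ → ℝ} (hβ : ContDiff ℝ ∞ β) : ContDiff ℝ ∞ (BB β) :=
  contDiff_const.mul ((hβ.comp Real.contDiff_cosh).mul Real.contDiff_sinh)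

lemma supp_BB {β : ℝ → ℝ} (hs : HasCompactSupport β) : HasCompactSupport (BB β) := by
  obtain ⟨R, hR⟩ := hs.isCompact.isBounded.subset_closedBall 0
  refine HasCompactSupport.intro (isCompact_closedBall (0:ℝ) (|R| + 1)) fun x hx => ?_
  have h1 : |R| + 1 < |x| := by
    rw [Metric.mem_closedBall, dist_zero_right, Real.norm_eq_abs, not_le] at hx
    exact hx
  have h2 : β (Real.cosh x) = 0 := by
    by_contra hne
    have h3 := hR (subset_tsupport _ (Function.mem_support.2 hne))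
    rw [Metric.mem_closedBall, dist_zero_right, Real.norm_eq_abs,
      abs_of_pos (Real.cosh_pos x)] at h3
    have h4 : |x| ≤ Real.cosh x := by
      rw [← Real.cosh_abs]
      have h5 := Real.self_le_sinh_iff.2 (abs_nonneg x)
      have h6 := Real.sinh_lt_cosh |x|
      linarith
    linarith [le_abs_self R]
  rw [BB, h2, zero_mul, mul_zero]

lemma smooth_DG (γ : ℝ) {β : ℝ → ℝ} (hβ : ContDiff ℝ ∞ β) : ContDiff ℝ ∞ (DG γ β) := by
  refine Complex.ofRealCLM.contDiff.comp ?_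
  refine ContDiff.mul (contDiff_const.mul (Real.contDiff_exp.comp ?_)) ?_
  · exact (contDiff_const.mul contDiff_id).neg
  · exact (contDiff_infty_iff_deriv.1 (smooth_BB hβ)).2

lemma supp_DG (γ : ℝ) {β : ℝ → ℝ} (hs : HasCompactSupport β) : HasCompactSupport (DG γ β) := by
  have h1 : HasCompactSupport (deriv (BB β)) := (supp_BB hs).deriv
  have h2 : HasCompactSupport fun τ => 1 / 2 * Real.exp (-(γ * τ)) * deriv (BB β) τ :=
    h1.mul_left
  exact h2.comp_left (g := fun x : ℝ => (x : ℂ)) Complex.ofReal_zero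

lemma int_DG (γ : ℝ) {β : ℝ → ℝ} (hβ : ContDiff ℝ ∞ β) (r : ℝ) :
    ∫ τ in (-r)..r, (Real.exp (γ * τ) : ℂ) * DG γ β τ = (BB β r : ℂ) := by
  have h1 : ∀ τ : ℝ, (Real.exp (γ * τ) : ℂ) * DG γ β τ = ((1 / 2 * deriv (BB β) τ : ℝ) : ℂ) := by
    intro τ
    unfold DG
    rw [← Complex.ofReal_mul]
    congr 1
    have h2 : Real.exp (γ * τ) * Real.exp (-(γ * τ)) = 1 := by
      rw [← Real.exp_add, add_neg_cancel, Real.exp_zero]
    linear_combination (1 / 2 * deriv (BB β) τ) * h2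
  simp only [h1]
  rw [intervalIntegral.integral_ofReal, intervalIntegral.integral_const_mul]
  congr 1
  have h3 : ∀ x ∈ uIcc (-r) r, HasDerivAt (BB β) (deriv (BB β) x) x := fun x _ =>
    ((smooth_BB hβ).differentiable (by simp) x).hasDerivAt
  have h4 : Continuous (deriv (BB β)) := (contDiff_infty_iff_deriv.1 (smooth_BB hβ)).2.continuous
  rw [intervalIntegral.integral_eq_sub_of_hasDerivAt h3 (h4.intervalIntegrable _ _)]
  unfold BB
  rw [Real.cosh_neg, Real.sinh_neg]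
  ring

include hPLA hFAM in
theorem dense_main (hp : 2 < p) (hISO : S_ISO) (hRAD : S_RAD) (hGDN : S_GDN) (hBMP : S_BMP) :
    Dense ((Submodule.span ℂ {x : Lp ℂ (ENNReal.ofReal p) (volume : Measure (ℂ × ℝ)) |
      ∃ (y₀ : ℂ × ℝ) (a : ℝ → ℂ) (ha : ContDiff ℝ ∞ a) (hs : HasCompactSupport a),
        x = vv hp hPLA hFAM y₀ a ha hs} :
        Submodule ℂ (Lp ℂ (ENNReal.ofReal p) (volume : Measure (ℂ × ℝ)))) :
        Set (Lp ℂ (ENNReal.ofReal p) (volume : Measure (ℂ × ℝ)))) := by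
  set V₀ := Submodule.span ℂ {x : Lp ℂ (ENNReal.ofReal p) (volume : Measure (ℂ × ℝ)) |
      ∃ (y₀ : ℂ × ℝ) (a : ℝ → ℂ) (ha : ContDiff ℝ ∞ a) (hs : HasCompactSupport a),
        x = vv hp hPLA hFAM y₀ a ha hs} with hV₀
  suffices h : V₀.topologicalClosure = ⊤ by
    rw [dense_iff_closure_eq, ← Submodule.topologicalClosure_coe, h]
    rfl
  refine hBMP p (by linarith) V₀.topologicalClosure V₀.isClosed_topologicalClosure
    fun y₀ β hβ hs f hf => ?_
  obtain ⟨C, hC⟩ := hFAM p hp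
  have hGs := smooth_DG (gam p) hβ
  have hGc := supp_DG (gam p) hs
  have hGb : ∃ M : ℝ, ∀ σ, ‖DG (gam p) β σ‖ ≤ M :=
    hGc.exists_bound_of_continuous hGs.continuous
  have hGm : MemLp (DG (gam p) β) (ENNReal.ofReal p) :=
    hGs.continuous.memLp_of_hasCompactSupport hGc
  -- `f` is the superposition
  have hf2 : ⇑f =ᵐ[volume] fam (gam p) y₀ (DG (gam p) β) := by
    have hne : ∀ᵐ y : ℂ × ℝ, y ≠ y₀ := by
      have : ({y₀}ᶜ : Set (ℂ × ℝ)) ∈ ae (volume : Measure (ℂ × ℝ)) := by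
        rw [mem_ae_iff, compl_compl]
        have h0 : ({y₀} : Set (ℂ × ℝ)) = {y₀.1} ×ˢ {y₀.2} := by
          rw [singleton_prod_singleton]
        rw [h0, Measure.volume_eq_prod, Measure.prod_prod, Real.volume_singleton, mul_zero]
      exact this
    filter_upwards [hf, hne] with y hy hyne
    have h1 : 1 < ch y₀ y := by
      refine lt_of_le_of_ne (hISO.2.2.2.2.2.2.2.2.1 y₀ y) fun h => hyne ?_
      exact (hISO.2.2.2.2.2.2.2.2.2.2.1 y₀ y h.symm).symm
    rw [hy, hRAD (gam p) (gam_pos hp) (gam_lt hp) y₀ _ hGs.continuous hGb y h1, int_DG _ hβ]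
    have h2 : 0 < Real.arcosh (ch y₀ y) := Real.arcosh_pos h1
    have h3 : 0 < Real.sinh (Real.arcosh (ch y₀ y)) := Real.sinh_pos_iff.2 h2
    unfold BB
    rw [Real.cosh_arcosh h1.le, ← Complex.ofReal_mul]
    congr 1
    have := Real.pi_pos
    field_simp
  -- approximation
  rw [← SetLike.mem_coe, Submodule.topologicalClosure_coe, Metric.mem_closure_iff]
  intro ε hε
  obtain ⟨a, ha, has, hae⟩ := hGDN p hp (DG (gam p) β) hGs hGc (ε / 2 / (|C| + 1)) (by positivity)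
  refine ⟨vv hp hPLA hFAM y₀ a ha has, Submodule.subset_span ⟨y₀, a, ha, has, rfl⟩, ?_⟩
  obtain ⟨h1, ⟨M1, h2⟩, h3⟩ := GG_mem hPLA hp ha has
  obtain ⟨M2, hM2⟩ := hGb
  have h4 := hC y₀ (fun σ => DG (gam p) β σ - GG a σ) (hGs.continuous.sub h1)
    ⟨M2 + M1, fun σ => (norm_sub_le _ _).trans (add_le_add (hM2 σ) (h2 σ))⟩ (hGm.sub h3)
  have h5 := hC y₀ (DG (gam p) β) hGs.continuous ⟨M2, hM2⟩ hGm
  have h6 := hC y₀ (GG a) h1 ⟨M1, h2⟩ h3
  have h7 : ⇑(f - vv hp hPLA hFAM y₀ a ha has) =ᵐ[volume]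
      fam (gam p) y₀ (fun σ => DG (gam p) β σ - GG a σ) := by
    filter_upwards [Lp.coeFn_sub f (vv hp hPLA hFAM y₀ a ha has), hf2,
      MemLp.coeFn_toLp (vv_mem hPLA hFAM hp y₀ ha has)] with y e1 e2 e3
    rw [e1, Pi.sub_apply, e2]
    have e4 : (vv hp hPLA hFAM y₀ a ha has) y = fam (gam p) y₀ (GG a) y := e3
    rw [e4]
    unfold fam
    rw [← integral_sub (h5.1 y) (h6.1 y)]
    refine integral_congr_ae (Eventually.of_forall fun b => ?_)
    simp only []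
    ring
  rw [dist_eq_norm, Lp.norm_def, eLpNorm_congr_ae h7]
  have h8 : eLpNorm (fam (gam p) y₀ (fun σ => DG (gam p) β σ - GG a σ)) (ENNReal.ofReal p) volume ≤
      ENNReal.ofReal (ε / 2) := by
    refine h4.2.2.trans ?_
    calc ENNReal.ofReal C * _
        ≤ ENNReal.ofReal (|C| + 1) * ENNReal.ofReal (ε / 2 / (|C| + 1)) :=
          mul_le_mul' (ENNReal.ofReal_le_ofReal (by linarith [le_abs_self C])) hae
      _ = ENNReal.ofReal (ε / 2) := by
          rw [← ENNReal.ofReal_mul (by positivity)]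
          congr 1
          field_simp
  exact (ENNReal.toReal_le_of_le_ofReal (by positivity) h8).trans_lt (by linarith)

theorem hyper (hp : 2 < p) (hISO : S_ISO) (hFTK : S_FTK) (hACT : S_ACT) (hRAD : S_RAD)
    (hRLB : S_RLB) (hPLA : S_PLA) (hFAM : S_FAM) (hGDN : S_GDN) (hBMP : S_BMP) (hKIT : S_KIT)
    {T : Lp ℂ (ENNReal.ofReal p) (volume : Measure (ℂ × ℝ)) →L[ℂ]
      Lp ℂ (ENNReal.ofReal p) (volume : Measure (ℂ × ℝ))} (hT : IsOp T) :
    ∃ x : Lp ℂ (ENNReal.ofReal p) (volume : Measure (ℂ × ℝ)),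
      Dense (range fun n : ℕ => (T ^ n) x) := by
  have : Fact (ENNReal.ofReal p ≠ (⊤ : ℝ≥0∞)) := ⟨ENNReal.ofReal_ne_top⟩
  refine hKIT _ T _ (dense_main hPLA hFAM hp hISO hRAD hGDN hBMP) ?_ ?_
  · rintro _ ⟨y₀, a, ha, hs, rfl⟩
    have h1 : ∀ n : ℕ, (T ^ n) (vv hp hPLA hFAM y₀ a ha hs) =
        vv hp hPLA hFAM y₀ (ph (Real.pi / (2 * gam p)) (n : ℝ) a) (smooth_ph _ _ ha)
          (supp_ph _ _ hs) := by
      intro n
      have h2 := T_pow hp hPLA hFAM hFTK hACT hT y₀ a ha hs 0 n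
      rw [zero_add] at h2
      rw [← h2]
      congr 1
      exact vv_congr hp hPLA hFAM y₀ (ph_zero _ a).symm _ _ _ _
    rw [Metric.tendsto_atTop]
    intro ε hε
    obtain ⟨t₀, ht₀⟩ := vv_small hp hPLA hFAM hRLB y₀ a ha hs (ε / 2) (by positivity)
    obtain ⟨m, hm⟩ := exists_nat_ge t₀
    refine ⟨m, fun n hn => ?_⟩
    rw [dist_zero_right, h1 n]
    have h3 : t₀ ≤ |(n : ℝ)| := by
      rw [Nat.abs_cast]
      exact hm.trans (by exact_mod_cast hn)
    linarith [ht₀ n h3]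
  · rintro _ ⟨y₀, a, ha, hs, rfl⟩
    refine ⟨fun n => vv hp hPLA hFAM y₀ (ph (Real.pi / (2 * gam p)) (-(n : ℝ)) a)
      (smooth_ph _ _ ha) (supp_ph _ _ hs), fun n => ?_, ?_⟩
    · rw [T_pow hp hPLA hFAM hFTK hACT hT y₀ a ha hs (-(n:ℝ)) n]
      refine vv_congr hp hPLA hFAM y₀ ?_ _ _ _ _
      rw [neg_add_cancel, ph_zero]
    · rw [Metric.tendsto_atTop]
      intro ε hε
      obtain ⟨t₀, ht₀⟩ := vv_small hp hPLA hFAM hRLB y₀ a ha hs (ε / 2) (by positivity)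
      obtain ⟨m, hm⟩ := exists_nat_ge t₀
      refine ⟨m, fun n hn => ?_⟩
      rw [dist_zero_right]
      have h3 : t₀ ≤ |(-(n : ℝ))| := by
        rw [abs_neg, Nat.abs_cast]
        exact hm.trans (by exact_mod_cast hn)
      linarith [ht₀ _ h3]

end main

end Pool.Agent.Q76.HM
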