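import Pool.Agent.Q76.HM.Asm
import Pool.Agent.Q251.HMKAP
import Pool.Agent.Q58.HM.Ftk
import Pool.Agent.Q277.HM.ISO
import Pool.Agent.Q277.HM.HOR
import Pool.Agent.Q251.HMPOV
import Pool.Agent.Q251.HMPOI
import Pool.Agent.Q81.HM.Opr
import Pool.Agent.Q111.HM.FAM
import Pool.Agent.Q277.HM.ACTb
import Pool.Agent.Q111.HM.RLB
import Pool.Agent.Q176.HM.Pla
import Pool.Agent.Q58.HM.Bmp
import Pool.Agent.Q277.HM.KIT
import Pool.Agent.Q225.HM.Hel

/-!
# Project HM (helper76): the last steps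
-/

set_option autoImplicit false

namespace Pool.Agent.Q76.HM

open MeasureTheory Filter Topology Set
open scoped ENNReal ContDiff

/-! ### the symbol -/

lemma normSq_sub (u v : ℝ) :
    Complex.normSq (Complex.cosh (u + v * Complex.I)) -
      Complex.normSq (Complex.sinh (u + v * Complex.I)) = Real.cos (2 * v) := by
  have h1 : Complex.cosh (u + v * Complex.I) =
      ((Real.cosh u * Real.cos v : ℝ) : ℂ) + ((Real.sinh u * Real.sin v : ℝ) : ℂ) * Complex.I := by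
    rw [Complex.cosh_add, Complex.cosh_mul_I, Complex.sinh_mul_I]
    push_cast
    ring
  have h2 : Complex.sinh (u + v * Complex.I) =
      ((Real.sinh u * Real.cos v : ℝ) : ℂ) + ((Real.cosh u * Real.sin v : ℝ) : ℂ) * Complex.I := by
    rw [Complex.sinh_add, Complex.cosh_mul_I, Complex.sinh_mul_I]
    push_cast
    ring
  rw [h1, h2, Complex.normSq_add_mul_I, Complex.normSq_add_mul_I, Real.cos_two_mul]
  have h3 := Real.cosh_sq u
  have h4 := Real.sin_sq_add_cos_sq v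
  have h5 : Real.sin v ^ 2 = 1 - Real.cos v ^ 2 := by linarith
  calc (Real.cosh u * Real.cos v) ^ 2 + (Real.sinh u * Real.sin v) ^ 2 -
        ((Real.sinh u * Real.cos v) ^ 2 + (Real.cosh u * Real.sin v) ^ 2)
      = Real.cosh u ^ 2 * (Real.cos v ^ 2 - Real.sin v ^ 2) -
        Real.sinh u ^ 2 * (Real.cos v ^ 2 - Real.sin v ^ 2) := by ring
    _ = 2 * Real.cos v ^ 2 - 1 := by rw [h3, h5]; ring

/-- the bound for the symbol -/
theorem sym_le (γ : ℝ) (hγ : 0 < γ) (l : ℂ) :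
    (|l.im| ≤ γ → ‖Complex.tanh (Real.pi * l / (4 * γ)) ^ 2‖ ≤ 1) ∧
    (|l.im| < γ → ‖Complex.tanh (Real.pi * l / (4 * γ)) ^ 2‖ < 1) := by
  set k : ℝ := Real.pi / (4 * γ) with hk
  have hkpos : 0 < k := by have := Real.pi_pos; positivity
  have hw : Real.pi * l / (4 * γ) = ((k * l.re : ℝ) : ℂ) + ((k * l.im : ℝ) : ℂ) * Complex.I := by
    conv_lhs => rw [← Complex.re_add_im l]
    rw [hk]
    push_cast
    ring
  have hkγ : 2 * (k * γ) = Real.pi / 2 := by
    rw [hk]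
    field_simp
    ring
  have key := normSq_sub (k * l.re) (k * l.im)
  rw [hw, Complex.tanh_eq_sinh_div_cosh]
  set A := Complex.cosh (((k * l.re : ℝ) : ℂ) + ((k * l.im : ℝ) : ℂ) * Complex.I)
  set B := Complex.sinh (((k * l.re : ℝ) : ℂ) + ((k * l.im : ℝ) : ℂ) * Complex.I)
  have hnorm : ‖(B / A) ^ 2‖ = Complex.normSq B / Complex.normSq A := by
    rw [norm_pow, norm_div, div_pow, Complex.normSq_eq_norm_sq, Complex.normSq_eq_norm_sq]
  rw [hnorm]
  have habs : |2 * (k * l.im)| = 2 * (k * |l.im|) := by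
    rw [abs_mul, abs_mul, abs_of_pos hkpos, abs_two]
  constructor
  · intro hl
    have h1 : 0 ≤ Real.cos (2 * (k * l.im)) := by
      refine Real.cos_nonneg_of_mem_Icc (abs_le.1 ?_)
      rw [habs, ← hkγ]
      gcongr
    refine div_le_one_of_le₀ (by linarith) (Complex.normSq_nonneg _)
  · intro hl
    have h1 : 0 < Real.cos (2 * (k * l.im)) := by
      refine Real.cos_pos_of_mem_Ioo (abs_lt.1 ?_)
      rw [habs, ← hkγ]
      gcongr
    have h2 := Complex.normSq_nonneg B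
    rw [div_lt_one (by linarith)]
    linarith

/-! ### the isometries -/

theorem commute {p : ℝ} [Fact (1 ≤ ENNReal.ofReal p)] (hISO : S_ISO) (hKAP : S_KAP) (hp : 2 < p)
    {T : Lp ℂ (ENNReal.ofReal p) (volume : Measure (ℂ × ℝ)) →L[ℂ]
      Lp ℂ (ENNReal.ofReal p) (volume : Measure (ℂ × ℝ))} (hT : IsOp T)
    (g : ℂ × ℝ → ℂ × ℝ) (hg : MeasurePreserving g volume volume)
    (hch : ∀ x y, ch (g x) (g y) = ch x y)
    (f : Lp ℂ (ENNReal.ofReal p) (volume : Measure (ℂ × ℝ))) :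
    T (Lp.compMeasurePreserving g hg f) = Lp.compMeasurePreserving g hg (T f) := by
  have hKm : Measurable (Kc (1 - 2 / p)) := (hKAP _ (gam_pos hp)).2.2.2.2.1
  apply Lp.ext
  have h1 := (hT (Lp.compMeasurePreserving g hg f)).2
  have h2 := Lp.coeFn_compMeasurePreserving (T f) hg
  have h3 := Lp.coeFn_compMeasurePreserving f hg
  have h4 := hg.quasiMeasurePreserving.ae (hT f).2
  filter_upwards [h1, h2, h3, h4] with x e1 e2 e3 e4
  rw [e1, e2, Function.comp_apply, e4, e3, Function.comp_apply]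
  congr 1
  have h5 : ∫ y, (Kc (1 - 2 / p) (ch x y) : ℂ) * (Lp.compMeasurePreserving g hg f) y =
      ∫ y, (Kc (1 - 2 / p) (ch (g x) (g y)) : ℂ) * f (g y) := by
    refine integral_congr_ae ?_
    filter_upwards [h3] with y hy
    rw [hy, hch]
    rfl
  rw [h5]
  have hm : AEStronglyMeasurable (fun y => (Kc (1 - 2 / p) (ch (g x) y) : ℂ) * f y)
      (Measure.map g volume) := by
    rw [hg.map_eq]
    refine AEStronglyMeasurable.mul ?_ (Lp.memLp f).aestronglyMeasurable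
    have hc : Measurable fun y => ch (g x) y :=
      (hISO.2.2.2.2.2.2.2.2.2.2.2.1.comp (Continuous.prodMk_right (g x))).measurable
    exact (Complex.measurable_ofReal.comp (hKm.comp hc)).aestronglyMeasurable
  have h6 := integral_map hg.measurable.aemeasurable hm
  rw [hg.map_eq] at h6
  exact h6.symm

/-- the main theorem -/
theorem main (p : ℝ) (hp : 2 < p) [Fact (1 ≤ ENNReal.ofReal p)] :
    ∃ T : Lp ℂ (ENNReal.ofReal p) (volume : Measure (ℂ × ℝ)) →L[ℂ]
        Lp ℂ (ENNReal.ofReal p) (volume : Measure (ℂ × ℝ)),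
      (∀ (g : ℂ × ℝ → ℂ × ℝ) (hg : MeasurePreserving g volume volume),
        (∀ x y, ch (g x) (g y) = ch x y) → ∀ f,
          T (Lp.compMeasurePreserving g hg f) = Lp.compMeasurePreserving g hg (T f)) ∧
      (∀ f : ℂ × ℝ → ℂ, Continuous f → HasCompactSupport f →
        ∀ F : Lp ℂ (ENNReal.ofReal p) (volume : Measure (ℂ × ℝ)), ⇑F =ᵐ[volume] f →
          ∀ l : ℂ, |l.im| ≤ 1 - 2 / p → ∀ b : Option ℂ,
            Integrable (fun x => T F x * wav l b x) ∧
            ∫ x, T F x * wav l b x =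
              Complex.tanh (Real.pi * l / (4 * (1 - 2 / p : ℝ))) ^ 2 * ∫ x, f x * wav l b x) ∧
      (∀ l : ℂ, |l.im| ≤ 1 - 2 / p →
        ‖Complex.tanh (Real.pi * l / (4 * (1 - 2 / p : ℝ))) ^ 2‖ ≤ 1) ∧
      (∀ l : ℂ, |l.im| < 1 - 2 / p →
        ‖Complex.tanh (Real.pi * l / (4 * (1 - 2 / p : ℝ))) ^ 2‖ < 1) ∧
      ∃ f, Dense (range fun n : ℕ => (T ^ n) f) := by
  have hKAP : S_KAP := Pool.Agent.Q251.HMK.kapp
  have hFTK : S_FTK := Pool.Agent.Q58.HM.ftk hKAP
  have hISO : S_ISO := Pool.Agent.Q277.HM.iso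
  have hHOR : S_HOR := Pool.Agent.Q277.HM.hor hKAP
  have hHRB : S_HRB := Pool.Agent.Q277.HM.hrb hHOR hISO
  have hPOV : S_POV := Pool.Agent.Q251.HMP.pov
  have hPOI : S_POI := Pool.Agent.Q251.HMO.poi hPOV hISO
  have hFAM : S_FAM := Pool.Agent.Q111.HM.fam_bd hISO
  have hACT : S_ACT := Pool.Agent.Q277.HM.act hKAP hHRB
  have hRAD : S_RAD := Pool.Agent.Q277.HM.rad hPOI
  have hRLB : S_RLB := Pool.Agent.Q111.HM.rlb
  have hPLA : S_PLA := Pool.Agent.Q176.HM.pla
  have hGDN : S_GDN := Pool.Agent.Q176.HM.gdn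
  have hBMP : S_BMP := Pool.Agent.Q58.HM.bmp hISO
  have hKIT : S_KIT := Pool.Agent.Q277.HM.kit
  have hHEL : S_HEL := Pool.Agent.Q225.HM.hel hKAP hFTK hISO hHOR hHRB
  have hOPR : S_OPR := Pool.Agent.Q81.HM.opr hKAP hISO hHOR
  obtain ⟨T, hT⟩ := hOPR p hp
  refine ⟨T, fun g hg hch f => commute hISO hKAP hp hT g hg hch f, ?_,
    fun l => (sym_le _ (gam_pos hp) l).1, fun l => (sym_le _ (gam_pos hp) l).2,
    hyper hp hISO hFTK hACT hRAD hRLB hPLA hFAM hGDN hBMP hKIT hT⟩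
  intro f hf hs F hF l hl b
  have h1 : ⇑(T F) =ᵐ[volume] fun x => f x - ∫ y, (Kc (gam p) (ch x y) : ℂ) * f y := by
    filter_upwards [(hT F).2, hF] with x e1 e2
    rw [e1, e2]
    congr 1
    refine integral_congr_ae ?_
    filter_upwards [hF] with y hy
    rw [hy]
  obtain ⟨h2, h3⟩ := hHEL (gam p) (gam_pos hp) (gam_lt hp) f hf hs l hl b
  have h4 : (fun x => T F x * wav l b x) =ᵐ[volume]
      fun x => (f x - ∫ y, (Kc (gam p) (ch x y) : ℂ) * f y) * wav l b x := by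
    filter_upwards [h1] with x e1
    rw [e1]
  exact ⟨h2.congr h4.symm, (integral_congr_ae h4).trans h3⟩

end Pool.Agent.Q76.HM
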